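import Mathlib
import Pool.Agent.X255.RH.Main
import Pool.Agent.N534.DI.Six

/-!
# Clausen values of depth one at all roots of almost all integral polynomials

Let `ω = e^(π i / 3)`. The Clausen value of depth one and weight `w` is `Li_w(ω)`, the value at `s = w` of the entire function `Li_s(ω)`. The other
functions `Li_s(z)` with `z^6 = 1` (the zeta function and the alternating zeta function among them) are combinations of `Li_s(ω)` and `Li_s(ω⁻¹)`
with coefficients in `ℚ(ω, 2^(-s), 3^(-s))`, by the distribution relations. Let `A` be a finite set of real numbers and let `M`, `K` be integers. We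
consider the numbers `2^(-x)`, `3^(-x)` and the derivatives of `Li_s(ω)` and `Li_s(ω⁻¹)` of the orders `k < K` at the points `s = m x + a`,
`1 ≤ m ≤ M`, `a ∈ A`, at ALL the roots `x` of an integral polynomial of degree `g`; so `x` runs through algebraic numbers of degree `g` with all
their conjugates (rational numbers for `g = 1`).

We prove: for almost all integral polynomials with coefficients at most `T` these numbers, at all roots `x` together, satisfy no algebraic
relation over number fields whose degree and whose field degree is at most `ω(T)` and whose height is at most `T ^ ω(T)`, where `ω(T) → ∞`; the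
coefficients of the relations may contain arbitrary given complex numbers `ξ_0, ξ_1, …`, for instance all multiple Clausen values.

The proof is an application of `Pool.Agent.X255.RH.main_all` (values of algebraically independent functions at the roots of almost all
polynomials). That the functions are algebraically independent over `ℂ(x)` is proved in `Pool.Agent.N534.DI.aindepP`, with the derivations
`f(n) ↦ v_p(n) f(n)` of the ring of arithmetic functions and Dirichlet's theorem on primes in arithmetic progressions.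
-/

set_option autoImplicit false

open Polynomial Filter Topology NumberField

namespace Pool.Agent.Results.MP_528be1_nt.DepthOneAtAllRoots

/-- The integral vectors `a = (a_0, …, a_g)` with `|a_i| ≤ T`. -/
noncomputable def box (g T : ℕ) : Finset (Fin (g + 1) → ℤ) := Fintype.piFinset fun _ => Finset.Icc (-(T : ℤ)) (T : ℤ)

/-- The polynomial `a_0 + a_1 x + … + a_g x^g`. -/
noncomputable def poly {g : ℕ} (a : Fin (g + 1) → ℤ) : ℂ[X] := ∑ i, C (a i : ℂ) * X ^ (i : ℕ)

/-- All complex numbers. -/
def dom : Set ℂ := Set.univ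

/-- The complex roots of the polynomial with the coefficients `a`. -/
noncomputable def roots {g : ℕ} (a : Fin (g + 1) → ℤ) : Finset ℂ := by
  classical exact (poly a).roots.toFinset.filter fun z => z ∈ dom

/-- The entire functions `Li_s(e^(π i / 3))` (`i = 0`) and `Li_s(e^(-π i / 3))` (`i = 1`) of `s`: the analytic continuation of the series
`∑ e^(2 π i n t) n^(-s)`, `t = 1 / 6` and `t = - 1 / 6` (see `polylog_eq`). -/
noncomputable def polylog (i : Fin 2) (s : ℂ) : ℂ :=
  HurwitzZeta.expZeta (((![1 / 6, -(1 / 6)] : Fin 2 → ℝ) i : ℝ) : UnitAddCircle) s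

/-- The names of the functions: `q = 2, 3` stands for `q^(-x)`, and `(e, i, a, k)` stands for the `k`-th derivative of `polylog e` at
`(i + 1) x + a`. -/
abbrev Index (M : ℕ) (A : Finset ℝ) (K : ℕ) : Type := {q // q ∈ ({2, 3} : Finset ℕ)} ⊕ (Fin 2 × (Fin M × ({a // a ∈ A} × Fin K)))

/-- Equality of names is decidable. -/
noncomputable instance (M : ℕ) (A : Finset ℝ) (K : ℕ) : DecidableEq (Index M A K) := inferInstance

/-- The values. -/
noncomputable def values {M : ℕ} {A : Finset ℝ} {K : ℕ} : Index M A K → ℂ → ℂ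
  | Sum.inl q, x => ((q : ℕ) : ℂ) ^ (-x)
  | Sum.inr j, x => iteratedDeriv j.2.2.2 (polylog j.1) ((((j.2.1 : ℕ) + 1 : ℕ) : ℂ) * x + ((j.2.2.1 : ℝ) : ℂ))

/-- The numbers `x q` satisfy no relation of degree at most `k` in each of them with coefficients `∑_{b < k} ξ_b c_b`, where the `c_b` are
integers of a number field of degree at most `k` all of whose conjugates are at most `T ^ k`, except the relations all of whose coefficients
vanish. -/
def NoRelation {Q : Type} [Fintype Q] [DecidableEq Q] (ξ : ℕ → ℂ) (k : ℕ) (T : ℝ) (x : Q → ℂ) : Prop :=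
  ∀ (F : Type) [Field F] [NumberField F], Module.finrank ℚ F ≤ k → ∀ (io : F →+* ℂ)
    (c : (Q → Fin (k + 1)) → Fin k → 𝓞 F), (∀ l b (φ : F →+* ℂ), ‖φ (c l b : F)‖ ≤ T ^ k) →
    ∑ l, (∑ b : Fin k, ξ b * io (c l b : F)) * ∏ q, x q ^ (l q : ℕ) = 0 → ∀ l, ∑ b : Fin k, ξ b * io (c l b : F) = 0

/-- The polynomial with the coefficients `a` has degree `g` and simple roots, and there is no relation between the values at all its roots
together. -/
def Good {g : ℕ} (M : ℕ) (A : Finset ℝ) (K : ℕ) (ξ : ℕ → ℂ) (k : ℕ) (T : ℝ) (a : Fin (g + 1) → ℤ) : Prop :=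
  a (Fin.last g) ≠ 0 ∧ (poly a).Separable ∧
    NoRelation ξ k T fun q : {x // x ∈ roots a} × Index M A K => values q.2 q.1

section proofs

variable {M K : ℕ} {A : Finset ℝ}

/-- the series of the two functions -/
theorem polylog_eq (i : Fin 2) {s : ℂ} (hs : 1 < s.re) :
    HasSum (fun n : ℕ => Complex.exp (2 * Real.pi * Complex.I * ((![1 / 6, -(1 / 6)] : Fin 2 → ℝ) i : ℝ) * n) / (n : ℂ) ^ s)
      (polylog i s) :=
  HurwitzZeta.hasSum_expZeta_of_one_lt_re _ hs

theorem ne_zero (i : Fin 2) : ((((![1 / 6, -(1 / 6)] : Fin 2 → ℝ) i : ℝ) : UnitAddCircle)) ≠ 0 := by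
  intro h
  obtain ⟨n, hn⟩ := (AddCircle.coe_eq_zero_iff (1 : ℝ)).1 h
  have h1 : ((6 * n : ℤ) : ℝ) = 6 * (![1 / 6, -(1 / 6)] : Fin 2 → ℝ) i := by
    rw [← hn]
    simp
  fin_cases i
  · have h2 : ((6 * n : ℤ) : ℝ) = ((1 : ℤ) : ℝ) := by
      rw [h1]
      simp
    have h3 : 6 * n = 1 := by exact_mod_cast h2
    omega
  · have h2 : ((6 * n : ℤ) : ℝ) = ((-1 : ℤ) : ℝ) := by
      rw [h1]
      simp
    have h3 : 6 * n = -1 := by exact_mod_cast h2
    omega

theorem polylog_an (k : ℕ) (i : Fin 2) : AnalyticOnNhd ℂ (iteratedDeriv k (polylog i)) Set.univ := by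
  rw [iteratedDeriv_eq_iterate]
  have h : AnalyticOnNhd ℂ (polylog i) Set.univ :=
    DifferentiableOn.analyticOnNhd (HurwitzZeta.differentiable_expZeta_of_ne_zero (ne_zero i)).differentiableOn isOpen_univ
  exact h.iterated_deriv k

theorem an (j : Index M A K) : AnalyticOnNhd ℂ (values j) dom := by
  intro z _
  rcases j with ⟨q, hq⟩ | j
  · have hq0 : ((q : ℕ) : ℂ) ∈ Complex.slitPlane := by
      rw [Complex.natCast_mem_slitPlane]
      rintro rfl
      simp at hq
    exact AnalyticAt.cpow (g := fun x : ℂ => -x) analyticAt_const analyticAt_id.neg hq0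
  · exact AnalyticAt.fun_comp (g := iteratedDeriv j.2.2.2 (polylog j.1))
      (f := fun x => (((j.2.1 : ℕ) + 1 : ℕ) : ℂ) * x + ((j.2.2.1 : ℝ) : ℂ))
      (polylog_an _ _ _ (Set.mem_univ _)) ((analyticAt_const.mul analyticAt_id).add analyticAt_const)

theorem ind : Pool.Agent.X255.RH.Indep dom (values (M := M) (A := A) (K := K)) := by
  refine Pool.Agent.X255.RH.indep_of_aindepS fun P hP => Pool.Agent.N534.DI.aindepP {2, 3} (fun q hq => ?_)
    Pool.Agent.N534.DI.ph Pool.Agent.N534.DI.sepP_ph polylog Pool.Agent.N534.DI.ph_abs Pool.Agent.N534.DI.ph_L 0 P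
    fun x _ => ?_
  · rcases Finset.mem_insert.1 hq with rfl | hq
    · exact Nat.prime_two
    · rw [Finset.mem_singleton.1 hq]
      exact Nat.prime_three
  · refine Eq.trans ?_ (hP (x : ℂ) (Set.mem_univ _))
    congr 1
    congr 1
    funext o
    rcases o with _ | _ | _ <;> rfl

end proofs

open scoped Classical in
/-- **All roots of almost all polynomials.** Let `A` be a finite set of real numbers and let `M`, `K` be integers. For every degree `g ≥ 1` and all
complex numbers `ξ_0, ξ_1, …` there is a function `ω(T) → ∞` such that among the `(2 T + 1)^(g + 1)` integral polynomials with coefficients at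
most `T` at most the proportion `1 / ω(T)` is not good. -/
theorem result (M : ℕ) (A : Finset ℝ) (K : ℕ) (g : ℕ) (hg : 0 < g) (ξ : ℕ → ℂ) :
    ∃ ω : ℕ → ℕ, Tendsto ω atTop atTop ∧ Monotone ω ∧ ∀ T : ℕ,
      ω T * ((box g T).filter fun a => ¬ Good M A K ξ (ω T) T a).card ≤ (box g T).card :=
  Pool.Agent.X255.RH.main_all hg (isPreconnected_univ : IsPreconnected dom) (isOpen_univ : IsOpen dom) (fun _ => dom)
    (fun _ => Pool.Agent.X255.RH.tame_univ) an ind ξ

end Pool.Agent.Results.MP_528be1_nt.DepthOneAtAllRoots
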