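import Mathlib
import Pool.Agent.X90.DM.Gen
import Pool.Agent.X90.DM.Wrd
import Pool.Agent.X90.DC.Conv

/-!
# MP_528be1_nt: relations of small height between cyclotomic multiple zeta values are identities, for almost all arguments

`Li_{a_1, ..., a_n}(z_1, ..., z_n)`, `z_i ^ N = 1`, are the cyclotomic multiple zeta values; the multiple Clausen values
are the case `z_1 = exp (π i / 3)`, `z_2 = ... = 1`, the alternating multiple zeta values are the case `N = 2`.

Let `w_1, ..., w_r` be patterns with one variable argument: a list of constant arguments in front, such that the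
corresponding series converges, the variable argument `s + b`, and a list of constant arguments behind, with arbitrary
`N`-th roots of unity; for instance `Li_{3, 1, s + 2, 5}(-1, 1, -1, 1)`. The pattern `w_j` is evaluated at the variable
`s_{v_j}`, one of `k` variables `s_1, ..., s_k`. Let `x_1, ..., x_t` be arbitrary complex numbers, for instance `π i`,
`log 2` and arbitrary cyclotomic multiple zeta values.

Theorem. (1) For all `D` and `ε > 0` there is a `δ > 0` such that for all but `ε M ^ k` of the tuples `s ∈ [1, M] ^ k`,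
`M` large, every polynomial relation between the `x_i` and the values of the patterns at `s`, of degree at most `D` and
with integer coefficients of absolute value at most `exp (δ M)`, is an identity: it holds for all tuples `s'` of large
numbers. (2) If all arguments in front are positive and the first one is at least two, the series of the front converges.

The theorem is the unused theorem `gen` of `Pool.Agent.X90.DM` together with `Cl_li` (starting library). The starting
file `SharpMeasures` on this page treats growing arguments `a_j n + b_j`, first argument included, and all large `n`.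
-/

set_option autoImplicit false

namespace Pool.Agent.Results.MP_528be1_nt.PolylogarithmIdentities

open Filter Topology

/-- the sum of `∏ z_i ^ n_i / n_i ^ a_i` over `m > n_1 > ... > n_r ≥ 1`, for the list of the pairs `(a_i, z_i)` -/
noncomputable def trunc : List (ℕ × ℂ) → ℕ → ℂ
  | [], _ => 1
  | p :: l, m => ∑ j ∈ Finset.Ico 1 m, p.2 ^ j / (j : ℂ) ^ p.1 * trunc l j

/-- `Li_{a_1, ..., a_r}(z_1, ..., z_r)`, the limit of the truncated sums -/
noncomputable def Li (w : List (ℕ × ℂ)) : ℂ := limUnder atTop (trunc w)

/-- the truncated sums of all initial segments of the list converge -/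
def Convergent (p : List (ℕ × ℂ)) : Prop := ∀ q, q <+: p → ∃ c : ℂ, Tendsto (trunc q) atTop (𝓝 c)

/-- a pattern with one variable argument, which is the variable number `v` plus `b` -/
structure Pattern (k : ℕ) where
  /-- the constant arguments in front, with their roots of unity -/
  front : List (ℕ × ℂ)
  /-- the variable argument is `s v + b` -/
  b : ℕ
  /-- the root of unity at the variable argument -/
  z : ℂ
  /-- the constant arguments behind, with their roots of unity -/
  back : List (ℕ × ℂ)
  /-- the number of the variable -/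
  v : Fin k

/-- all numbers are `n`-th roots of unity, and the series of the front converges -/
def Pattern.Admissible {k : ℕ} (n : ℕ) (w : Pattern k) : Prop :=
  (∀ x ∈ w.front, x.2 ^ n = 1) ∧ w.z ^ n = 1 ∧ (∀ x ∈ w.back, x.2 ^ n = 1) ∧ Convergent w.front

/-- the value of the pattern at the tuple `s` -/
noncomputable def Pattern.value {k : ℕ} (w : Pattern k) (s : Fin k → ℕ) : ℂ :=
  Li (w.front ++ (s w.v + w.b, w.z) :: w.back)

/-- the smallest value of the variables which is considered -/
def start {k r : ℕ} (w : Fin r → Pattern k) : ℕ :=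
  (Finset.univ.sup fun j => (w j).front.length + (w j).back.length) + 3

/-- `P` vanishes at the numbers `x` and the values of the patterns at `s` -/
def Relation {k r t : ℕ} (w : Fin r → Pattern k) (x : Fin t → ℂ) (P : MvPolynomial (Fin t ⊕ Fin r) ℤ)
    (s : Fin k → ℕ) : Prop :=
  MvPolynomial.aeval (Sum.elim x fun j => (w j).value s) P = 0

/-- the tuples with all entries between `start w` and `M` with a relation, of degree at most `D` and with coefficients
at most `H`, which is not an identity -/
def exceptional {k r t : ℕ} (w : Fin r → Pattern k) (x : Fin t → ℂ) (D M : ℕ) (H : ℝ) : Set (Fin k → ℕ) :=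
  {s | (∀ i, start w ≤ s i ∧ s i ≤ M) ∧ ∃ P : MvPolynomial (Fin t ⊕ Fin r) ℤ, P.totalDegree ≤ D ∧
    (∀ m, |((P.coeff m : ℤ) : ℝ)| ≤ H) ∧ Relation w x P s ∧
    ¬ ∀ s' : Fin k → ℕ, (∀ i, start w ≤ s' i) → Relation w x P s'}

theorem trunc_eq : ∀ l m, trunc l m = Pool.Agent.X90.DM.trunc l m := by
  intro l
  induction l with
  | nil => intro m; rw [trunc, Pool.Agent.X90.DM.trunc]
  | cons p l ih =>
    intro m
    rw [trunc, Pool.Agent.X90.DM.trunc]
    exact Finset.sum_congr rfl fun j _ => by rw [ih]

theorem trunc_fun : trunc = Pool.Agent.X90.DM.trunc := by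
  funext l m
  exact trunc_eq l m

theorem Li_eq (w : List (ℕ × ℂ)) : Li w = Pool.Agent.X90.DM.li w := by
  rw [Li, Pool.Agent.X90.DM.li, trunc_fun]

theorem norm_trunc_le {n : ℕ} (hn : 1 ≤ n) (l : List (ℕ × ℂ)) (hl : ∀ x ∈ l, x.2 ^ n = 1) :
    ∀ m, ‖trunc l m‖ ≤ Pool.Agent.Y760.ZG.hr (l.map Prod.fst) m := by
  induction l with
  | nil =>
    intro m
    rw [trunc, List.map_nil, Pool.Agent.Y760.ZG.hr, norm_one]
  | cons p l ih =>
    intro m
    rw [trunc, List.map_cons, Pool.Agent.Y760.ZG.hr]
    refine (norm_sum_le _ _).trans (Finset.sum_le_sum fun j _ => ?_)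
    have h1 : ‖p.2‖ = 1 := Complex.norm_eq_one_of_pow_eq_one (hl p List.mem_cons_self) (by omega)
    rw [norm_mul, norm_div, norm_pow, norm_pow, h1, one_pow, Complex.norm_natCast, one_div_mul_eq_div]
    exact div_le_div_of_nonneg_right (ih (fun x hx => hl x (List.mem_cons_of_mem _ hx)) j) (by positivity)

/-- fronts with first argument at least two -/
theorem convergent_of_two_le {n : ℕ} (hn : 1 ≤ n) (p : List (ℕ × ℂ)) (h1 : ∀ x ∈ p, x.2 ^ n = 1)
    (h2 : ∀ x ∈ p, 1 ≤ x.1) (h3 : ∀ x ∈ p.head?, 2 ≤ x.1) : Convergent p := by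
  intro q hq
  cases q with
  | nil => exact ⟨1, by simp only [trunc]; exact tendsto_const_nhds⟩
  | cons a l =>
    obtain ⟨u, rfl⟩ := hq
    have hl : ∀ x ∈ l, x.2 ^ n = 1 := fun x hx => h1 x (by simp [hx])
    have ha : ‖a.2‖ = 1 := Complex.norm_eq_one_of_pow_eq_one (h1 a (by simp)) (by omega)
    have ha2 : 2 ≤ a.1 := h3 a (by simp)
    have hs := Pool.Agent.X90.DC.summable_hr (l.map Prod.fst) (fun t ht => by
      rw [List.mem_map] at ht
      obtain ⟨x, hx, rfl⟩ := ht
      exact h2 x (by simp [hx])) ha2
    have hs2 : Summable fun m : ℕ => a.2 ^ (m + 1) / ((m + 1 : ℕ) : ℂ) ^ a.1 * trunc l (m + 1) := by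
      refine Summable.of_norm_bounded hs fun m => ?_
      rw [norm_mul, norm_div, norm_pow, norm_pow, ha, one_pow, Complex.norm_natCast, one_div_mul_eq_div]
      exact div_le_div_of_nonneg_right (norm_trunc_le hn l hl _) (by positivity)
    refine ⟨∑' m : ℕ, a.2 ^ (m + 1) / ((m + 1 : ℕ) : ℂ) ^ a.1 * trunc l (m + 1),
      (tendsto_add_atTop_iff_nat 1).1 ?_⟩
    refine hs2.hasSum.tendsto_sum_nat.congr fun m => ?_
    rw [trunc, Finset.sum_Ico_eq_sum_range, Nat.add_sub_cancel]
    exact Finset.sum_congr rfl fun j _ => by rw [Nat.add_comm 1 j]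

/-- (1) Let `w_1, ..., w_r` be patterns in `k ≥ 1` variables, with `n`-th roots of unity and convergent fronts, and
`x_1, ..., x_t` complex numbers. For all `D` and `ε > 0` there is a `δ > 0` such that for all large `M`, for all but at
most `ε M ^ k` of the tuples `s` of integers between `start w` and `M`, every polynomial relation between the `x_i` and
the values of the `w_j` at `s`, of degree at most `D` and with integer coefficients of absolute value at most
`exp (δ M)`, holds for all tuples `s'` with entries at least `start w`.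
(2) A front of positive arguments is convergent if its first argument is at least two. -/
theorem result :
    (∀ {k r t n : ℕ}, 1 ≤ k → 1 ≤ n → ∀ (w : Fin r → Pattern k), (∀ j, (w j).Admissible n) →
      ∀ (x : Fin t → ℂ) (D : ℕ) (ε : ℝ), 0 < ε → ∃ δ : ℝ, 0 < δ ∧ ∃ M₀ : ℕ, ∀ M : ℕ, M₀ ≤ M →
        ((exceptional w x D M (Real.exp (δ * M))).ncard : ℝ) ≤ ε * (M : ℝ) ^ k) ∧
    ∀ {n : ℕ}, 1 ≤ n → ∀ p : List (ℕ × ℂ), (∀ x ∈ p, x.2 ^ n = 1) → (∀ x ∈ p, 1 ≤ x.1) →
      (∀ x ∈ p.head?, 2 ≤ x.1) → Convergent p := by
  refine ⟨?_, fun hn p h1 h2 h3 => convergent_of_two_le hn p h1 h2 h3⟩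
  intro k r t n hk hn w hw x D ε hε
  obtain ⟨δ, hδ, M₀, hM₀⟩ := Pool.Agent.X90.DM.gen t k r D hk
    ((Finset.univ.sup fun j => (w j).front.length + (w j).back.length) + 2) x (fun j => (w j).v)
    (fun j s => Pool.Agent.X90.DM.li ((w j).front ++ (s + (w j).b, (w j).z) :: (w j).back))
    (fun j => by
      obtain ⟨g1, g2, g3, g4⟩ := hw j
      refine Pool.Agent.X90.DM.Cl.mono ?_ (Pool.Agent.X90.DM.Cl_li hn (w j).front (w j).back (w j).b
        (w j).z g2 g1 (fun q hq => ?_) g3)
      · have h := Finset.le_sup (f := fun j => (w j).front.length + (w j).back.length) (Finset.mem_univ j)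
        have h' : (w j).front.length + (w j).back.length ≤
          Finset.univ.sup fun j => (w j).front.length + (w j).back.length := h
        omega
      · obtain ⟨c, hc⟩ := g4 q hq
        refine ⟨c, ?_⟩
        rw [trunc_fun] at hc
        exact hc) ε hε
  refine ⟨δ, hδ, M₀, fun M hM => ?_⟩
  have h := hM₀ M hM
  refine le_trans (le_of_eq ?_) h
  congr 2
  have hrel : ∀ (P : MvPolynomial (Fin t ⊕ Fin r) ℤ) (s : Fin k → ℕ), Relation w x P s ↔
      MvPolynomial.aeval (Sum.elim x fun j => Pool.Agent.X90.DM.li ((w j).front ++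
        (s (w j).v + (w j).b, (w j).z) :: (w j).back)) P = 0 := by
    intro P s
    have e : (fun j => (w j).value s) = fun j => Pool.Agent.X90.DM.li ((w j).front ++
        (s (w j).v + (w j).b, (w j).z) :: (w j).back) := by
      funext j
      rw [Pattern.value, Li_eq]
    rw [Relation, e]
  ext s
  simp only [exceptional, Set.mem_ofPred_eq, hrel, start]

end Pool.Agent.Results.MP_528be1_nt.PolylogarithmIdentities
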